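import Mathlib

/-!
A Lie algebra of matrices which contains all diagonal matrices of trace zero and which is normalised
by a strongly irreducible group contains all matrices of trace zero.
-/

set_option autoImplicit false

open Matrix

namespace Pool.Agent.Helper31.KM

variable {K : Type} [Field K] [CharZero K] {N : Type} [Fintype N] [DecidableEq N]

/-- the diagonal of the difference of two diagonal units -/
def dd (i j : N) : N → K := fun k => (if k = i then 1 else 0) - (if k = j then 1 else 0)

/-- The component at a root. -/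
lemma single_mem (L : Submodule K (Matrix N N K)) (hbr : ∀ x ∈ L, ∀ y ∈ L, x * y - y * x ∈ L)
    (hD : ∀ i j : N, i ≠ j → diagonal (dd i j : N → K) ∈ L) {c : Matrix N N K} (hc : c ∈ L)
    {i j : N} (hij : i ≠ j) (h0 : c i j ≠ 0) : single i j (1 : K) ∈ L := by
  have hT : ∀ x ∈ L, diagonal (dd i j : N → K) * x - x * diagonal (dd i j : N → K) ∈ L :=
    fun x hx => hbr _ (hD i j hij) _ hx
  have m1 := L.sub_mem (hT c hc) hc
  have m2 := hT _ m1
  have m3 := L.add_mem (hT _ m2) m2
  have m4 := L.add_mem (hT _ m3) (L.smul_mem (2 : K) m3)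
  have m5 := L.smul_mem (24 * c i j)⁻¹ m4
  have h24 : (24 : K) * c i j ≠ 0 := mul_ne_zero (by norm_num) h0
  convert m5 using 1
  ext k l
  simp only [Matrix.smul_apply, Matrix.add_apply, Matrix.sub_apply, diagonal_mul, mul_diagonal, smul_eq_mul, single_apply]
  have key : ∀ t : K, (if i = k ∧ j = l then (1 : K) else 0) * (24 * c i j) = t →
      (if i = k ∧ j = l then (1 : K) else 0) = (24 * c i j)⁻¹ * t := by
    intro t ht
    rw [← ht]
    field_simp
  apply key
  have hji : j ≠ i := hij.symm
  by_cases hk : k = i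
  · subst hk
    by_cases hl : l = j
    · subst hl
      simp [dd, hij, hji]
      ring
    · have hl' : ¬ (j = l) := fun h => hl h.symm
      by_cases hl2 : l = k
      · subst hl2
        simp [dd, hij, hl']
      · simp [dd, hij, hl, hl', hl2]
  · have hk' : ¬ (i = k) := fun h => hk h.symm
    by_cases hk2 : k = j
    · subst hk2
      by_cases hl : l = k
      · subst hl
        simp [dd, hk', hk]
      · by_cases hl2 : l = i
        · subst hl2
          simp [dd, hk', hk, hl]
          ring
        · simp [dd, hk', hk, hl, hl2]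
    · by_cases hl : l = j
      · subst hl
        simp [dd, hk', hk, hk2, hji]
      · by_cases hl2 : l = i
        · subst hl2
          simp [dd, hk', hk, hk2, hl]
        · simp [dd, hk', hk, hk2, hl, hl2]

/-- stable under a Lie algebra -/
def Inv (L : Submodule K (Matrix N N K)) (W : Submodule K (N → K)) : Prop :=
  ∀ c ∈ L, ∀ w ∈ W, c *ᵥ w ∈ W

lemma comp_mem {L : Submodule K (Matrix N N K)}
    (hD : ∀ i j : N, i ≠ j → diagonal (dd i j : N → K) ∈ L) {W : Submodule K (N → K)}
    (hW : Inv L W) {v : N → K} (hv : v ∈ W) (k : N) : v k • (Pi.single k 1 : N → K) ∈ W := by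
  by_cases h : ∃ l, l ≠ k
  · obtain ⟨l, hl⟩ := h
    have h1 := hW _ (hD k l hl.symm) v hv
    have h2 := hW _ (hD k l hl.symm) _ h1
    have h3 := W.smul_mem (2 : K)⁻¹ (W.add_mem h1 h2)
    convert h3 using 1
    ext m
    have h20 : (2 : K) ≠ 0 := two_ne_zero
    simp only [Pi.smul_apply, Pi.add_apply, mulVec_diagonal, smul_eq_mul, Pi.single_apply, dd]
    by_cases hm : m = k
    · subst hm
      simp [hl.symm]
      field_simp
      ring
    · by_cases hm2 : m = l
      · subst hm2
        simp [hm]
      · simp [hm, hm2]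
  · push Not at h
    have e : v k • (Pi.single k 1 : N → K) = v := by
      ext m
      have := h m
      subst this
      simp
    rw [e]
    exact hv

lemma inv_le {L : Submodule K (Matrix N N K)}
    (hD : ∀ i j : N, i ≠ j → diagonal (dd i j : N → K) ∈ L) {W W' : Submodule K (N → K)}
    (hW : Inv L W) (h : ∀ k, (Pi.single k 1 : N → K) ∈ W → (Pi.single k 1 : N → K) ∈ W') :
    W ≤ W' := by
  intro v hv
  have e : v = ∑ k, v k • (Pi.single k 1 : N → K) := by
    ext m
    simp [Finset.sum_apply, Pi.single_apply]
  rw [e]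
  refine W'.sum_mem fun k _ => ?_
  have h1 := comp_mem hD hW hv k
  by_cases hk : v k = 0
  · rw [hk, zero_smul]; exact W'.zero_mem
  · have h2 := W.smul_mem (v k)⁻¹ h1
    rw [smul_smul, inv_mul_cancel₀ hk, one_smul] at h2
    exact W'.smul_mem _ (h k h2)

/-- The image of a subspace. -/
def mp (a : Matrix N N K) (W : Submodule K (N → K)) : Submodule K (N → K) := W.map (toLin' a)

lemma mem_mp {a : Matrix N N K} {W : Submodule K (N → K)} {v : N → K} :
    v ∈ mp a W ↔ ∃ w ∈ W, a *ᵥ w = v := by
  simp [mp, Submodule.mem_map, toLin'_apply]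

lemma mp_mul (a b : Matrix N N K) (W : Submodule K (N → K)) : mp (a * b) W = mp a (mp b W) := by
  ext v
  rw [mem_mp, mem_mp]
  constructor
  · rintro ⟨w, hw, rfl⟩
    exact ⟨b *ᵥ w, mem_mp.2 ⟨w, hw, rfl⟩, by rw [mulVec_mulVec]⟩
  · rintro ⟨w', hw', rfl⟩
    obtain ⟨w, hw, rfl⟩ := mem_mp.1 hw'
    exact ⟨w, hw, by rw [mulVec_mulVec]⟩

lemma mp_one (W : Submodule K (N → K)) : mp (1 : Matrix N N K) W = W := by
  ext v
  rw [mem_mp]
  constructor
  · rintro ⟨w, hw, rfl⟩
    rwa [one_mulVec]
  · intro hv
    exact ⟨v, hv, one_mulVec v⟩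

theorem sl_of {Γ : Type} [Group Γ] (Δ : Subgroup Γ) (hΔ : Δ.FiniteIndex) (σ : Γ →* Matrix N N K)
    (L : Submodule K (Matrix N N K)) (hbr : ∀ x ∈ L, ∀ y ∈ L, x * y - y * x ∈ L)
    (hD : ∀ i j : N, i ≠ j → diagonal (dd i j : N → K) ∈ L)
    (hconj : ∀ γ ∈ Δ, ∀ c ∈ L, σ γ⁻¹ * c * σ γ ∈ L)
    (hirr : ∀ Δ' : Subgroup Γ, Δ'.FiniteIndex → ∀ W : Submodule K (N → K),
      (∀ γ ∈ Δ', ∀ w ∈ W, σ γ *ᵥ w ∈ W) → W = ⊥ ∨ W = ⊤) :
    ∀ c : Matrix N N K, c.trace = 0 → c ∈ L := by
  classical
  have hσ : ∀ γ : Γ, σ γ * σ γ⁻¹ = 1 := fun γ => by rw [← map_mul, mul_inv_cancel, map_one]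
  have hE : ∀ i k : N, k ≠ i → single k i (1 : K) ∈ L := by
    intro i k hki
    let W : Submodule K (N → K) :=
      { carrier := {v | ∀ k, v k ≠ 0 → k = i ∨ single k i (1 : K) ∈ L}
        add_mem' := by
          intro v w hv hw k hk
          by_contra hcon
          have h1 : v k = 0 := by by_contra h; exact hcon (hv k h)
          have h2 : w k = 0 := by by_contra h; exact hcon (hw k h)
          exact hk (by rw [Pi.add_apply, h1, h2, add_zero])
        zero_mem' := by intro k hk; exact absurd rfl hk
        smul_mem' := by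
          intro a v hv k hk
          refine hv k fun h => hk ?_
          rw [Pi.smul_apply, h, smul_zero] }
    have memW : ∀ v : N → K, v ∈ W ↔ ∀ k, v k ≠ 0 → k = i ∨ single k i (1 : K) ∈ L :=
      fun v => Iff.rfl
    have hW : Inv L W := by
      intro c hc w hw l hl
      have hw' := (memW w).1 hw
      obtain ⟨m, hm⟩ : ∃ m, c l m * w m ≠ 0 := by
        by_contra h
        push Not at h
        apply hl
        show ∑ m, c l m * w m = 0
        exact Finset.sum_eq_zero fun m _ => h m
      have hm1 : c l m ≠ 0 := left_ne_zero_of_mul hm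
      have hm2 : w m ≠ 0 := right_ne_zero_of_mul hm
      by_cases hli : l = i
      · exact Or.inl hli
      right
      by_cases hlm : l = m
      · subst hlm
        exact (hw' l hm2).resolve_left hli
      have h1 := single_mem L hbr hD hc hlm hm1
      rcases hw' m hm2 with h | h
      · rw [← h]; exact h1
      · have h2 := hbr _ h1 _ h
        rw [single_mul_single_same, single_mul_single_of_ne _ _ _ _ (Ne.symm hli)] at h2
        simpa using h2
    -- the stabiliser
    have hinv : ∀ γ ∈ Δ, Inv L (mp (σ γ) W) := by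
      intro γ hγ c hc v hv
      obtain ⟨w, hw, rfl⟩ := mem_mp.1 hv
      refine mem_mp.2 ⟨(σ γ⁻¹ * c * σ γ) *ᵥ w, hW _ (hconj γ hγ c hc) w hw, ?_⟩
      rw [mulVec_mulVec, mulVec_mulVec, ← Matrix.mul_assoc, ← Matrix.mul_assoc, hσ, Matrix.one_mul]
    let Δ' : Subgroup Γ :=
      { carrier := {γ | γ ∈ Δ ∧ mp (σ γ) W = W}
        mul_mem' := by
          rintro a b ⟨ha, ha'⟩ ⟨hb, hb'⟩
          refine ⟨Δ.mul_mem ha hb, ?_⟩
          rw [map_mul, mp_mul, hb', ha']
        one_mem' := ⟨Δ.one_mem, by rw [map_one, mp_one]⟩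
        inv_mem' := by
          rintro a ⟨ha, ha'⟩
          refine ⟨Δ.inv_mem ha, ?_⟩
          conv_lhs => rw [← ha', ← mp_mul, ← map_mul, inv_mul_cancel, map_one, mp_one] }
    have memΔ' : ∀ γ, γ ∈ Δ' ↔ γ ∈ Δ ∧ mp (σ γ) W = W := fun γ => Iff.rfl
    have hle : Δ' ≤ Δ := fun γ h => h.1
    let J : Δ → Set N := fun γ => {k | (Pi.single k 1 : N → K) ∈ mp (σ (γ : Γ)) W}
    have hJ : ∀ a b : Δ, J a = J b → mp (σ (a : Γ)) W = mp (σ (b : Γ)) W := by
      intro a b hab
      apply le_antisymm
      · refine inv_le hD (hinv a a.2) fun k hk => ?_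
        have : k ∈ J b := hab ▸ hk
        exact this
      · refine inv_le hD (hinv b b.2) fun k hk => ?_
        have : k ∈ J a := hab ▸ hk
        exact this
    have hfin : Finite (Δ ⧸ Δ'.subgroupOf Δ) := by
      refine Finite.of_injective (fun q : Δ ⧸ Δ'.subgroupOf Δ => J q.out) ?_
      intro p q hpq
      have h1 := hJ _ _ hpq
      rw [← QuotientGroup.out_eq' p, ← QuotientGroup.out_eq' q]
      rw [QuotientGroup.eq, Subgroup.mem_subgroupOf, memΔ']
      refine ⟨Δ.mul_mem (Δ.inv_mem p.out.2) q.out.2, ?_⟩
      have e : (((p.out)⁻¹ * q.out : Δ) : Γ) = (p.out : Γ)⁻¹ * (q.out : Γ) := rfl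
      rw [e, map_mul, mp_mul, ← h1, ← mp_mul, ← map_mul, inv_mul_cancel, map_one, mp_one]
    have hfi : Δ'.FiniteIndex := by
      have h1 : (Δ'.subgroupOf Δ).index ≠ 0 := by
        rw [Subgroup.index_ne_zero_iff_finite]
        exact hfin
      have h2 : Δ'.relIndex Δ * Δ.index = Δ'.index := Subgroup.relIndex_mul_index hle
      refine ⟨?_⟩
      rw [← h2]
      exact mul_ne_zero h1 hΔ.index_ne_zero
    have hmem : (Pi.single i 1 : N → K) ∈ W := by
      rw [memW]
      intro m hm
      left
      by_contra h
      exact hm (Pi.single_eq_of_ne h 1)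
    rcases hirr Δ' hfi W (fun γ hγ w hw => by
      have h1 := ((memΔ' γ).1 hγ).2
      rw [← h1]
      exact mem_mp.2 ⟨w, hw, rfl⟩) with h | h
    · exfalso
      rw [h, Submodule.mem_bot] at hmem
      have := congrFun hmem i
      simp at this
    · have h1 : (Pi.single k 1 : N → K) ∈ W := by rw [h]; exact Submodule.mem_top
      have h2 := (memW _).1 h1 k (by simp)
      exact h2.resolve_left hki
  intro c hc
  by_cases hN : Nonempty N
  · obtain ⟨i0⟩ := hN
    have e : c = ∑ i, ∑ j, (if i = j then c i i • diagonal (dd i i0 : N → K) else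
        c i j • single i j (1 : K)) := by
      ext k l
      simp only [Matrix.sum_apply]
      by_cases hkl : k = l
      · subst hkl
        have h1 : ∀ i j : N, (if i = j then c i i • diagonal (dd i i0 : N → K) else
            c i j • single i j (1 : K)) k k =
            if i = j then c i i * (dd i i0 : N → K) k else 0 := by
          intro i j
          by_cases hij : i = j
          · simp [hij]
          · rw [if_neg hij, if_neg hij, Matrix.smul_apply, single_apply, if_neg, smul_zero]
            rintro ⟨rfl, rfl⟩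
            exact hij rfl
        simp only [h1, Finset.sum_ite_eq, Finset.mem_univ, if_true, dd, mul_sub, mul_ite, mul_one,
          mul_zero, Finset.sum_sub_distrib]
        have h2 : ∑ i, (if k = i0 then c i i else 0) = 0 := by
          by_cases hk : k = i0
          · simp only [hk, if_true]
            exact hc
          · simp [hk]
        rw [h2]
        simp
      · have h1 : ∀ i j : N, (if i = j then c i i • diagonal (dd i i0 : N → K) else
            c i j • single i j (1 : K)) k l =
            if i = k then (if j = l then c i j else 0) else 0 := by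
          intro i j
          by_cases hij : i = j
          · subst hij
            rw [if_pos rfl, Matrix.smul_apply, diagonal_apply_ne _ hkl, smul_zero]
            by_cases hik : i = k
            · subst hik
              rw [if_pos rfl, if_neg hkl]
            · rw [if_neg hik]
          · rw [if_neg hij, Matrix.smul_apply, single_apply]
            by_cases hik : i = k
            · by_cases hjl : j = l
              · simp [hik, hjl]
              · simp [hik, hjl]
            · simp [hik]
        simp only [h1]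
        simp
    rw [e]
    refine L.sum_mem fun i _ => L.sum_mem fun j _ => ?_
    by_cases hij : i = j
    · rw [if_pos hij]
      by_cases hi0 : i = i0
      · have : diagonal (dd i i0 : N → K) = 0 := by
          rw [hi0]
          ext k l
          simp [dd, diagonal_apply]
        rw [this, smul_zero]
        exact L.zero_mem
      · exact L.smul_mem _ (hD i i0 hi0)
    · rw [if_neg hij]
      exact L.smul_mem _ (hE j i hij)
  · have : c = 0 := by
      ext k
      exact absurd ⟨k⟩ hN
    rw [this]
    exact L.zero_mem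

end Pool.Agent.Helper31.KM
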