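import Pool.Agent.Helper79.KM.Defs
import Pool.Agent.Helper31.KM.Irr

/-!
The derivations preserving the vanishing ideal of a compatible family with a regular element and a strongly irreducible
member.
-/

set_option autoImplicit false

open Matrix H77MT

namespace Pool.Agent.Helper31.KM

open Pool.Agent.Helper79.KM

section gen
variable {K : Type} [Field K] {n : Type} [Fintype n] [DecidableEq n]

lemma DD_lt (A g : Matrix n n K) (f : MvPolynomial (n × n) K) :
    DD A (lt g f) = lt g (DD A f) := by
  induction f using MvPolynomial.induction_on with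
  | C c => simp [lt]
  | add p q hp hq => simp only [map_add, hp, hq]
  | mul_X p i hp =>
    have hltX : ∀ p : n × n, lt g (MvPolynomial.X p) =
        ∑ k, MvPolynomial.C (g p.1 k) * MvPolynomial.X (k, p.2) := fun p => by simp [lt]
    have hltC : ∀ c : K, lt g (MvPolynomial.C c) = MvPolynomial.C c := fun c => by
      simp [lt, MvPolynomial.algebraMap_eq]
    have hX : DD A (lt g (MvPolynomial.X i)) = lt g (DD A (MvPolynomial.X i)) := by
      rw [hltX, DD_X, map_sum, map_sum]
      have e1 : ∀ k, DD A (MvPolynomial.C (g i.1 k) * MvPolynomial.X (k, i.2) :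
          MvPolynomial (n × n) K) =
          ∑ l, MvPolynomial.C (g i.1 k * A l i.2) * MvPolynomial.X (k, l) := by
        intro k
        rw [Derivation.leibniz, DD_C, smul_zero, add_zero, DD_X, smul_eq_mul, Finset.mul_sum]
        refine Finset.sum_congr rfl fun l _ => ?_
        simp only [MvPolynomial.C_mul]; ring
      have e2 : ∀ k, lt g (MvPolynomial.C (A k i.2) * MvPolynomial.X (i.1, k)) =
          ∑ l, MvPolynomial.C (g i.1 l * A k i.2) * MvPolynomial.X (l, k) := by
        intro k
        rw [map_mul, hltC, hltX, Finset.mul_sum]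
        refine Finset.sum_congr rfl fun l _ => ?_
        simp only [MvPolynomial.C_mul]; ring
      simp_rw [e1, e2]
      rw [Finset.sum_comm]
    simp only [map_mul, Derivation.leibniz, hp, hX, map_add, smul_eq_mul]

/-- change of basis -/
lemma LL_base {S : Set (Matrix n n K)} {A P P' : Matrix n n K} (h1 : P * P' = 1)
    (hA : A ∈ LL {s | P * s * P' ∈ S}) : P * A * P' ∈ LL S := by
  have h2 : P' * P = 1 := mul_eq_one_comm.mp h1
  intro f hf s hs
  -- the polynomial `y ↦ f (P y P')`
  have h3 : ∀ y : Matrix n n K, ev y (rt P' (lt P f)) = ev (P * (y * P')) f := by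
    intro y
    rw [ev_rt, ev_lt]
  have h4 := hA (rt P' (lt P f)) (fun t ht => by
    rw [h3, ← Matrix.mul_assoc]
    exact hf _ ht) (P' * s * P) (by
      show P * (P' * s * P) * P' ∈ S
      have : P * (P' * s * P) * P' = s := by
        calc P * (P' * s * P) * P' = (P * P') * s * (P * P') := by simp only [Matrix.mul_assoc]
          _ = s := by rw [h1, Matrix.one_mul, Matrix.mul_one]
      rw [this]
      exact hs)
  rw [DD_rt A P' P h2, DD_lt, ev_rt, ev_lt] at h4
  have e : P * (P' * s * P * P') = s := by
    calc P * (P' * s * P * P') = (P * P') * s * (P * P') := by simp only [Matrix.mul_assoc]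
      _ = s := by rw [h1, Matrix.one_mul, Matrix.mul_one]
  rw [e] at h4
  exact h4

/-- a matrix with different eigenvalues is diagonalisable -/
lemma exists_diag {A : Matrix n n K} {u : n → K}
    (hu : A.charpoly = ∏ i, (Polynomial.X - Polynomial.C (u i))) (hinj : Function.Injective u) :
    ∃ P P' : Matrix n n K, P * P' = 1 ∧ P' * P = 1 ∧ A = P * diagonal u * P' := by
  have hroot : ∀ i, A.charpoly.IsRoot (u i) := by
    intro i
    rw [hu, Polynomial.IsRoot.def, Polynomial.eval_prod]
    exact Finset.prod_eq_zero (Finset.mem_univ i) (by simp)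
  have hev : ∀ i, ∃ v : n → K, v ≠ 0 ∧ A *ᵥ v = u i • v := by
    intro i
    have h2 : Module.End.HasEigenvalue (toLin' A : Module.End K (n → K)) (u i) := by
      rw [Module.End.hasEigenvalue_iff_isRoot_charpoly, charpoly_toLin']
      exact hroot i
    obtain ⟨v, hv⟩ := h2.exists_hasEigenvector
    refine ⟨v, hv.2, ?_⟩
    have := hv.apply_eq_smul
    rwa [toLin'_apply] at this
  choose v hv0 hv using hev
  have hli : LinearIndependent K v := by
    apply Module.End.eigenvectors_linearIndependent' (toLin' A) u hinj v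
    intro a
    refine ⟨?_, hv0 a⟩
    rw [Module.End.mem_genEigenspace_one]
    rw [toLin'_apply]
    exact hv a
  let P : Matrix n n K := Matrix.of fun i j => v j i
  have hPu : IsUnit P := by
    rw [← Matrix.linearIndependent_cols_iff_isUnit]
    exact hli
  have hd : IsUnit P.det := (Matrix.isUnit_iff_isUnit_det P).1 hPu
  have h1 : P * P⁻¹ = 1 := Matrix.mul_nonsing_inv P hd
  have h2 : P⁻¹ * P = 1 := Matrix.nonsing_inv_mul P hd
  have h3 : A * P = P * diagonal u := by
    ext i j
    rw [mul_diagonal]
    have := congrFun (hv j) i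
    rw [Pi.smul_apply, smul_eq_mul, mul_comm] at this
    exact this
  refine ⟨P, P⁻¹, h1, h2, ?_⟩
  rw [← h3, Matrix.mul_assoc, h1, Matrix.mul_one]

/-- additive characters with given values at independent elements -/
lemma exists_char (u : n → Kˣ) (hind : ∀ m : n → ℤ, ∏ i, u i ^ m i = 1 → ∀ i j, m i = m j)
    (h : n → ℚ) (hh : ∑ i, h i = 0) :
    ∃ χ : Additive Kˣ →+ ℚ, ∀ i, χ (Additive.ofMul (u i)) = h i := by
  let f : (n → ℤ) →+ Additive Kˣ :=
    { toFun := fun m => Additive.ofMul (∏ i, u i ^ m i)
      map_zero' := by simp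
      map_add' := by
        intro m m'
        rw [← ofMul_mul, ← Finset.prod_mul_distrib]
        congr 1
        exact Finset.prod_congr rfl fun i _ => by rw [Pi.add_apply, _root_.zpow_add] }
  have hf : ∀ m, f m = Additive.ofMul (∏ i, u i ^ m i) := fun _ => rfl
  let g : (n → ℤ) →+ ℚ :=
    { toFun := fun m => ∑ i, (m i : ℚ) * h i
      map_zero' := by simp
      map_add' := by
        intro m m'
        rw [← Finset.sum_add_distrib]
        exact Finset.sum_congr rfl fun i _ => by rw [Pi.add_apply, Int.cast_add, add_mul] }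
  have hg : ∀ m, g m = ∑ i, (m i : ℚ) * h i := fun _ => rfl
  have hker : f.ker ≤ g.ker := by
    intro m hm
    rw [AddMonoidHom.mem_ker, hf] at hm
    have h1 : ∏ i, u i ^ m i = 1 := by
      have := congrArg Additive.toMul hm
      simpa using this
    have h2 := hind m h1
    rw [AddMonoidHom.mem_ker, hg]
    by_cases hn : Nonempty n
    · obtain ⟨i0⟩ := hn
      have : ∀ i, (m i : ℚ) * h i = (m i0 : ℚ) * h i := fun i => by rw [h2 i i0]
      rw [Finset.sum_congr rfl fun i _ => this i, ← Finset.mul_sum, hh, mul_zero]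
    · refine Finset.sum_eq_zero fun i _ => absurd ⟨i⟩ hn
  let φ : (n → ℤ) ⧸ f.ker →+ Additive Kˣ := QuotientAddGroup.kerLift f
  have hφ : Function.Injective φ := QuotientAddGroup.kerLift_injective f
  let g' : (n → ℤ) ⧸ f.ker →+ ℚ := QuotientAddGroup.lift f.ker g hker
  obtain ⟨χ, hχ⟩ := (Module.Baer.of_divisible ℚ).extension_property_addMonoidHom φ hφ g'
  refine ⟨χ, fun i => ?_⟩
  have h1 := congrArg (fun ψ => ψ (QuotientAddGroup.mk (Pi.single i (1 : ℤ) : n → ℤ))) hχ
  simp only [AddMonoidHom.comp_apply] at h1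
  have h2 : φ (QuotientAddGroup.mk (Pi.single i (1 : ℤ) : n → ℤ)) = Additive.ofMul (u i) := by
    show f _ = _
    rw [hf]
    congr 1
    rw [Finset.prod_eq_single i]
    · simp
    · intro j _ hj
      rw [Pi.single_eq_of_ne hj, zpow_zero]
    · intro hi
      exact absurd (Finset.mem_univ i) hi
  have h3 : g' (QuotientAddGroup.mk (Pi.single i (1 : ℤ) : n → ℤ)) = h i := by
    show g _ = _
    rw [hg, Finset.sum_eq_single i]
    · simp
    · intro j _ hj
      rw [Pi.single_eq_of_ne hj, Int.cast_zero, zero_mul]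
    · intro hi
      exact absurd (Finset.mem_univ i) hi
  rw [h2, h3] at h1
  exact h1

end gen

variable {K : Type} [Field K] [IsAlgClosed K] [CharZero K] {Γ X : Type} [Group Γ] [DecidableEq X] [Fintype X] {g : ℕ}

omit [IsAlgClosed K] [CharZero K] [Fintype X] in
lemma mat_mul (ρ : Rep Γ X g K) (a b : Γ) [Fintype X] : mat ρ (a * b) = mat ρ a * mat ρ b := by
  unfold mat
  rw [← blockDiagonal_mul]
  congr 1
  funext x
  rw [map_mul, Units.val_mul]

omit [IsAlgClosed K] [CharZero K] [Fintype X] in
lemma mat_one (ρ : Rep Γ X g K) : mat ρ 1 = 1 := by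
  unfold mat
  rw [← blockDiagonal_one]
  congr 1
  funext x
  rw [map_one, Units.val_one]
  rfl

/-- The projection of the derivations to one eigenspace contains all matrices of trace zero. -/
theorem full_l (ρ : Rep Γ X g K) (Δ : Subgroup Γ) (hΔ : Δ.FiniteIndex)
    -- an element with independent eigenvalues
    {γ : Γ} (hγ : γ ∈ Δ) (u : X → Ix g → K)
    (hu : ∀ x, (ρ x γ : Matrix (Ix g) (Ix g) K).charpoly = ∏ i, (Polynomial.X - Polynomial.C (u x i)))
    (hind : ∀ (x : X) (m : Ix g → ℤ), ∏ i, u x i ^ m i = 1 → ∀ i j, m i = m j)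
    -- strongly irreducible
    (x : X) (hirr : ∀ Δ' : Subgroup Γ, Δ'.FiniteIndex → ∀ W : Submodule K (Ix g → K),
      (∀ γ ∈ Δ', ∀ w ∈ W, (ρ x γ : Matrix (Ix g) (Ix g) K) *ᵥ w ∈ W) → W = ⊥ ∨ W = ⊤) :
    ∀ c : Matrix (Ix g) (Ix g) K, c.trace = 0 → ∃ M : X → Matrix (Ix g) (Ix g) K,
      M x = c ∧ blockDiagonal M ∈ LL (img ρ Δ) := by
  classical
  have hu0 : ∀ x i, u x i ≠ 0 := by
    intro x i h0
    have h1 : (ρ x γ : Matrix (Ix g) (Ix g) K).charpoly.eval 0 = 0 := by
      rw [hu x, Polynomial.eval_prod]
      exact Finset.prod_eq_zero (Finset.mem_univ i) (by simp [h0])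
    rw [Matrix.eval_charpoly] at h1
    have h2 : (-(ρ x γ : Matrix (Ix g) (Ix g) K)).det = 0 := by
      simpa using h1
    rw [Matrix.det_neg] at h2
    have h3 : IsUnit (ρ x γ : Matrix (Ix g) (Ix g) K).det :=
      (Matrix.isUnit_iff_isUnit_det _).1 (ρ x γ).isUnit
    rcases mul_eq_zero.1 h2 with h | h
    · exact pow_ne_zero _ (neg_ne_zero.2 one_ne_zero) h
    · exact h3.ne_zero h
  have hinj : ∀ x, Function.Injective (u x) := by
    intro x i j hij
    by_contra hne
    have h1 := hind x (fun k => (if k = i then 1 else 0) - (if k = j then 1 else 0)) (by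
      have e : ∀ k, u x k ^ (((if k = i then 1 else 0) - (if k = j then 1 else 0) : ℤ)) =
          (if k = i then u x i else 1) / (if k = j then u x j else 1) := by
        intro k
        by_cases hki : k = i
        · subst hki
          simp [hne]
        · by_cases hkj : k = j
          · subst hkj
            simp [hki]
          · simp [hki, hkj]
      rw [Finset.prod_congr rfl fun k _ => e k, Finset.prod_div_distrib]
      simp only [Finset.prod_ite_eq', Finset.mem_univ, if_true]
      rw [hij, div_self (hu0 x j)]) i j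
    simp [hne, Ne.symm hne] at h1
  choose P P' hPP hPP' hA using fun x => exists_diag (hu x) (hinj x)
  have hB : blockDiagonal P * blockDiagonal P' = (1 : Matrix (Ix g × X) (Ix g × X) K) := by
    rw [← blockDiagonal_mul, ← blockDiagonal_one]
    congr 1
    funext x
    exact hPP x
  have hmul : ∀ s ∈ img ρ Δ, ∀ t ∈ img ρ Δ, s * t ∈ img ρ Δ := by
    rintro _ ⟨a, ha, rfl⟩ _ ⟨b, hb, rfl⟩
    exact ⟨a * b, Δ.mul_mem ha hb, by rw [mat_mul]⟩
  -- powers of the regular element
  have hpow : ∀ (x : X) (m : ℕ), (ρ x (γ ^ m) : Matrix (Ix g) (Ix g) K) =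
      P x * diagonal (fun i => u x i ^ m) * P' x := by
    intro x m
    induction m with
    | zero =>
      rw [pow_zero, map_one, Units.val_one]
      have : (diagonal fun i => u x i ^ 0 : Matrix (Ix g) (Ix g) K) = 1 := by
        rw [← diagonal_one]
        congr 1
        funext i
        exact pow_zero _
      rw [this, Matrix.mul_one, hPP]
    | succ m ih =>
      rw [pow_succ, map_mul, Units.val_mul, ih, hA x]
      have : (diagonal fun i => u x i ^ (m + 1) : Matrix (Ix g) (Ix g) K) =
          diagonal (fun i => u x i ^ m) * diagonal (u x) := by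
        rw [diagonal_mul_diagonal]
        congr 1
        funext i
        exact pow_succ _ _
      rw [this]
      calc P x * diagonal (fun i => u x i ^ m) * P' x * (P x * diagonal (u x) * P' x)
          = P x * diagonal (fun i => u x i ^ m) * (P' x * P x) * diagonal (u x) * P' x := by
            simp only [Matrix.mul_assoc]
        _ = P x * (diagonal (fun i => u x i ^ m) * diagonal (u x)) * P' x := by
            rw [hPP', Matrix.mul_one]
            simp only [Matrix.mul_assoc]
  have hpow' : ∀ m : ℕ, mat ρ (γ ^ m) = blockDiagonal P *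
      diagonal (fun q : Ix g × X => u q.2 q.1 ^ m) * blockDiagonal P' := by
    intro m
    have : (diagonal (fun q : Ix g × X => u q.2 q.1 ^ m) : Matrix (Ix g × X) (Ix g × X) K) =
        blockDiagonal (fun x => diagonal (fun i => u x i ^ m)) := by
      rw [blockDiagonal_diagonal]
    rw [this, ← blockDiagonal_mul, ← blockDiagonal_mul]
    unfold mat
    congr 1
    funext x
    exact hpow x m
  let a : Ix g × X → Kˣ := fun q => Units.mk0 (u q.2 q.1) (hu0 q.2 q.1)
  have htor : ∀ χ : Additive Kˣ →+ ℚ, blockDiagonal (fun x => P x *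
      diagonal (fun i => ((χ (Additive.ofMul (a (i, x))) : ℚ) : K)) * P' x) ∈ LL (img ρ Δ) := by
    intro χ
    have h1 := torus_mem_LL (RingHom.id K)
      (S := {s : Matrix (Ix g × X) (Ix g × X) K | blockDiagonal P * s * blockDiagonal P' ∈ img ρ Δ})
      a (by
        rintro s ⟨δ, hδ, hs⟩ m
        refine ⟨δ * γ ^ m, Δ.mul_mem hδ (Δ.pow_mem hγ m), ?_⟩
        have hB' : blockDiagonal P' * blockDiagonal P = (1 : Matrix (Ix g × X) (Ix g × X) K) :=
          mul_eq_one_comm.mp hB
        rw [mat_mul, ← hs, hpow' m]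
        calc blockDiagonal P * (s * diagonal fun i => (RingHom.id K) (a i : K) ^ m) *
              blockDiagonal P'
            = blockDiagonal P * s * (1 : Matrix (Ix g × X) (Ix g × X) K) *
              diagonal (fun q : Ix g × X => u q.2 q.1 ^ m) * blockDiagonal P' := by
              rw [Matrix.mul_one]
              simp only [Matrix.mul_assoc]
              rfl
          _ = _ := by
              rw [← hB']
              simp only [Matrix.mul_assoc]) χ
    have h2 := LL_base hB h1
    have : (diagonal (fun q : Ix g × X => ((χ (Additive.ofMul (a q)) : ℚ) : K)) :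
        Matrix (Ix g × X) (Ix g × X) K) =
        blockDiagonal (fun x => diagonal (fun i => ((χ (Additive.ofMul (a (i, x))) : ℚ) : K))) := by
      rw [blockDiagonal_diagonal]
    rw [this, ← blockDiagonal_mul, ← blockDiagonal_mul] at h2
    exact h2
  let L : Submodule K (Matrix (Ix g) (Ix g) K) :=
    { carrier := {c | ∃ M : X → Matrix (Ix g) (Ix g) K, M x = P x * c * P' x ∧
        blockDiagonal M ∈ LL (img ρ Δ)}
      add_mem' := by
        rintro c d ⟨M, hM, hM'⟩ ⟨M₂, hM₂, hM₂'⟩
        refine ⟨M + M₂, ?_, ?_⟩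
        · rw [Pi.add_apply, hM, hM₂, Matrix.mul_add, Matrix.add_mul]
        · rw [blockDiagonal_add]
          exact (LL (img ρ Δ)).add_mem hM' hM₂'
      zero_mem' := ⟨0, by simp, by rw [blockDiagonal_zero]; exact (LL (img ρ Δ)).zero_mem⟩
      smul_mem' := by
        rintro r c ⟨M, hM, hM'⟩
        refine ⟨r • M, ?_, ?_⟩
        · rw [Pi.smul_apply, hM, Matrix.mul_smul, Matrix.smul_mul]
        · rw [blockDiagonal_smul]
          exact (LL (img ρ Δ)).smul_mem r hM' }
  have memL : ∀ c, c ∈ L ↔ ∃ M : X → Matrix (Ix g) (Ix g) K, M x = P x * c * P' x ∧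
        blockDiagonal M ∈ LL (img ρ Δ) := fun _ => Iff.rfl
  let σ : Γ →* Matrix (Ix g) (Ix g) K :=
    { toFun := fun δ => P' x * (ρ x δ : Matrix (Ix g) (Ix g) K) * P x
      map_one' := by rw [map_one, Units.val_one, Matrix.mul_one, hPP']
      map_mul' := by
        intro δ δ'
        rw [map_mul, Units.val_mul]
        calc P' x * ((ρ x δ : Matrix (Ix g) (Ix g) K) * (ρ x δ' : Matrix (Ix g) (Ix g) K)) * P x
            = P' x * (ρ x δ : Matrix (Ix g) (Ix g) K) * 1 *
              (ρ x δ' : Matrix (Ix g) (Ix g) K) * P x := by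
              rw [Matrix.mul_one]
              simp only [Matrix.mul_assoc]
          _ = _ := by
              rw [← hPP x]
              simp only [Matrix.mul_assoc] }
  have hσ : ∀ δ, σ δ = P' x * (ρ x δ : Matrix (Ix g) (Ix g) K) * P x := fun _ => rfl
  have key := sl_of Δ hΔ σ L (by
      intro c hc d hd
      obtain ⟨M, hM, hM'⟩ := (memL c).1 hc
      obtain ⟨M₂, hM₂, hM₂'⟩ := (memL d).1 hd
      refine (memL _).2 ⟨fun y => M y * M₂ y - M₂ y * M y, ?_, ?_⟩
      · show M x * M₂ x - M₂ x * M x = _
        rw [hM, hM₂, Matrix.mul_sub, Matrix.sub_mul]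
        congr 1
        · calc P x * c * P' x * (P x * d * P' x) = P x * c * (P' x * P x) * d * P' x := by
                simp only [Matrix.mul_assoc]
            _ = P x * (c * d) * P' x := by
                rw [hPP', Matrix.mul_one]
                simp only [Matrix.mul_assoc]
        · calc P x * d * P' x * (P x * c * P' x) = P x * d * (P' x * P x) * c * P' x := by
                simp only [Matrix.mul_assoc]
            _ = P x * (d * c) * P' x := by
                rw [hPP', Matrix.mul_one]
                simp only [Matrix.mul_assoc]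
      · have e : blockDiagonal (fun y => M y * M₂ y - M₂ y * M y) =
            blockDiagonal M * blockDiagonal M₂ - blockDiagonal M₂ * blockDiagonal M := by
          rw [← blockDiagonal_mul, ← blockDiagonal_mul, ← blockDiagonal_sub]
          rfl
        rw [e]
        exact LL_bracket hM' hM₂')
    (by
      intro i j hij
      obtain ⟨χ, hχ⟩ := exists_char (fun i => a (i, x)) (by
        intro m hm
        apply hind x m
        have := congrArg (fun z : Kˣ => (z : K)) hm
        simp only [Units.coe_prod, Units.val_zpow_eq_zpow_val, Units.val_one] at this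
        exact this) (fun k => (if k = i then 1 else 0) - (if k = j then 1 else 0)) (by
          rw [Finset.sum_sub_distrib]
          simp)
      refine (memL _).2 ⟨_, ?_, htor χ⟩
      show P x * diagonal (fun i => ((χ (Additive.ofMul (a (i, x))) : ℚ) : K)) * P' x = _
      congr 3
      funext k
      rw [hχ k]
      simp only [dd]
      split_ifs <;> simp)
    (by
      intro δ hδ c hc
      obtain ⟨M, hM, hM'⟩ := (memL c).1 hc
      refine (memL _).2 ⟨fun y => (ρ y δ⁻¹ : Matrix (Ix g) (Ix g) K) * M y *
        (ρ y δ : Matrix (Ix g) (Ix g) K), ?_, ?_⟩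
      · show (ρ x δ⁻¹ : Matrix (Ix g) (Ix g) K) * M x * (ρ x δ : Matrix (Ix g) (Ix g) K) = _
        rw [hM, hσ, hσ]
        calc (ρ x δ⁻¹ : Matrix (Ix g) (Ix g) K) * (P x * c * P' x) *
              (ρ x δ : Matrix (Ix g) (Ix g) K)
            = 1 * (ρ x δ⁻¹ : Matrix (Ix g) (Ix g) K) * P x * c * P' x *
              (ρ x δ : Matrix (Ix g) (Ix g) K) * 1 := by
              rw [Matrix.mul_one, Matrix.one_mul]
              simp only [Matrix.mul_assoc]
          _ = _ := by
              rw [← hPP x]
              simp only [Matrix.mul_assoc]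
      · have h1 : mat ρ δ * mat ρ δ⁻¹ = 1 := by rw [← mat_mul, mul_inv_cancel, mat_one]
        have h2 := LL_conj hmul hM' (g := mat ρ δ) (g' := mat ρ δ⁻¹) ⟨δ, hδ, rfl⟩
          ⟨δ⁻¹, Δ.inv_mem hδ, rfl⟩ h1
        unfold mat at h2
        rw [← blockDiagonal_mul, ← blockDiagonal_mul] at h2
        exact h2)
    (by
      intro Δ' hΔ' W hW
      have e1 : P' x * P x = 1 := hPP' x
      have e2 : P x * P' x = 1 := hPP x
      rcases hirr Δ' hΔ' (mp (P x) W) (by
        intro δ hδ w hw
        obtain ⟨v, hv, rfl⟩ := mem_mp.1 hw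
        refine mem_mp.2 ⟨σ δ *ᵥ v, hW δ hδ v hv, ?_⟩
        rw [hσ, mulVec_mulVec, mulVec_mulVec, ← Matrix.mul_assoc, ← Matrix.mul_assoc, e2,
          Matrix.one_mul]) with h | h
      · left
        rw [← mp_one W, ← e1, mp_mul, h]
        simp [mp]
      · right
        rw [← mp_one W, ← e1, mp_mul, h, eq_top_iff]
        intro v _
        refine mem_mp.2 ⟨P x *ᵥ v, Submodule.mem_top, ?_⟩
        rw [mulVec_mulVec, e1, one_mulVec])
  intro c hc
  have h1 := key (P' x * c * P x) (by
    rw [Matrix.trace_mul_comm, ← Matrix.mul_assoc, hPP, Matrix.one_mul]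
    exact hc)
  obtain ⟨M, hM, hM'⟩ := (memL _).1 h1
  refine ⟨M, ?_, hM'⟩
  rw [hM]
  calc P x * (P' x * c * P x) * P' x = (P x * P' x) * c * (P x * P' x) := by
        simp only [Matrix.mul_assoc]
    _ = c := by rw [hPP, Matrix.one_mul, Matrix.mul_one]

end Pool.Agent.Helper31.KM
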